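import Pool.Agent.W97.MT.Stm

set_option autoImplicit false

open UpperHalfPlane Filter Topology MeasureTheory Set

namespace Pool.Agent.W349.MT

open Pool.Agent.W97.MT

theorem s_hint : Pool.Agent.W97.MT.S_HINT := by
  intro N p f a hp hint hh r
  have hp0 : (0 : ℝ) < p := by exact_mod_cast hp.pos
  have hpC : (p : ℂ) ≠ 0 := by exact_mod_cast hp.ne_zero
  set F : ℚ → ℝ → ℂ := fun r t => f (ofComplex ((r : ℂ) + t * Complex.I)) with hF
  have hprim : ∀ s : ℚ, prim f (s : ℂ) = 2 * Real.pi * ∫ t in Ioi (0 : ℝ), F s t := fun s => rfl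
  have key : ∀ t : ℝ, 0 < t → a * F r t =
      (if p ∣ N then 0 else (p : ℂ) * F (p * r) (p * t)) +
        (∑ b ∈ Finset.range p, F ((r + b) / p) ((p : ℝ)⁻¹ * t)) / p := by
    intro t ht
    have him : 0 < ((r : ℂ) + t * Complex.I).im := by simp [ht]
    have h1 := hh (ofComplex ((r : ℂ) + t * Complex.I))
    rw [hF]
    simp only
    rw [← h1, hecke]
    have hc : ((ofComplex ((r : ℂ) + t * Complex.I) : ℍ) : ℂ) = (r : ℂ) + t * Complex.I := by
      rw [ofComplex_apply_of_im_pos him]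
    rw [hc]
    congr 1
    · congr 1
      congr 3
      push_cast; ring
    · congr 1
      apply Finset.sum_congr rfl
      intro b _
      congr 2
      push_cast
      field_simp
      ring
  have hi1 : IntegrableOn (fun t => F (p * r) (p * t)) (Ioi 0) := by
    rw [integrableOn_Ioi_comp_mul_left_iff (F (p * r)) 0 hp0, mul_zero]
    exact hint _
  have hi2 : ∀ b : ℕ, IntegrableOn (fun t => F ((r + b) / p) ((p : ℝ)⁻¹ * t)) (Ioi 0) := by
    intro b
    rw [integrableOn_Ioi_comp_mul_left_iff (F ((r + b) / p)) 0 (inv_pos.2 hp0), mul_zero]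
    exact hint _
  have hv1 : ∫ t in Ioi (0 : ℝ), F (p * r) (p * t) = (p : ℂ)⁻¹ * ∫ t in Ioi (0 : ℝ), F (p * r) t := by
    rw [integral_comp_mul_left_Ioi _ 0 hp0, mul_zero, Complex.real_smul]; push_cast; rfl
  have hv2 : ∀ b : ℕ, ∫ t in Ioi (0 : ℝ), F ((r + b) / p) ((p : ℝ)⁻¹ * t) =
      (p : ℂ) * ∫ t in Ioi (0 : ℝ), F ((r + b) / p) t := by
    intro b
    rw [integral_comp_mul_left_Ioi _ 0 (inv_pos.2 hp0), mul_zero, inv_inv, Complex.real_smul]
    push_cast; rfl
  have hint1 : a * ∫ t in Ioi (0 : ℝ), F r t =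
      (if p ∣ N then 0 else ∫ t in Ioi (0 : ℝ), F (p * r) t) +
        ∑ b ∈ Finset.range p, ∫ t in Ioi (0 : ℝ), F ((r + b) / p) t := by
    rw [← integral_const_mul, setIntegral_congr_fun measurableSet_Ioi (fun t ht => key t ht)]
    have hsum : IntegrableOn (fun t => (∑ b ∈ Finset.range p, F ((r + b) / p) ((p : ℝ)⁻¹ * t)) /
        (p : ℂ)) (Ioi 0) := by
      apply Integrable.div_const
      exact integrable_finset_sum _ (fun b _ => hi2 b)
    have hsumv : ∫ t in Ioi (0 : ℝ), (∑ b ∈ Finset.range p, F ((r + b) / p) ((p : ℝ)⁻¹ * t)) /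
        (p : ℂ) = ∑ b ∈ Finset.range p, ∫ t in Ioi (0 : ℝ), F ((r + b) / p) t := by
      rw [integral_div, integral_finset_sum _ (fun b _ => hi2 b)]
      simp_rw [hv2]
      rw [← Finset.mul_sum]
      field_simp
    by_cases hN : p ∣ N
    · simp only [hN, if_true, zero_add]
      exact hsumv
    · simp only [hN, if_false]
      rw [integral_add (hi1.const_mul _) hsum, hsumv, integral_const_mul, hv1]
      congr 1
      field_simp
  rw [hprim r]
  have h3 : a * (2 * Real.pi * ∫ t in Ioi (0 : ℝ), F r t) =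
      2 * Real.pi * (a * ∫ t in Ioi (0 : ℝ), F r t) := by ring
  rw [h3, hint1, mul_add, Finset.mul_sum]
  congr 1
  · split_ifs
    · simp
    · rw [hprim]

end Pool.Agent.W349.MT
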