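import Pool.Agent.W97.MT.Stm

set_option autoImplicit false

open Filter Topology

namespace Pool.Agent.W349.MT

open Pool.Agent.W97.MT

theorem ev_nhds {P : ℂ → Prop} (h : ∀ᶠ q in 𝓝[≠] (0 : ℂ), P q) :
    ∀ᶠ q in 𝓝[≠] (0 : ℂ), ∀ᶠ t in 𝓝 q, P t := by
  have := eventually_eventually_nhdsWithin.2 h
  filter_upwards [this, self_mem_nhdsWithin] with q hq hq0
  rwa [isOpen_compl_singleton.nhdsWithin_eq hq0] at hq

theorem ident (g2 g3 : ℂ) (Φ γ : ℂ → ℂ) (hγ : AnalyticAt ℂ γ 0)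
    (h : ∀ᶠ q in 𝓝[≠] (0 : ℂ), (q * deriv (fun t => γ t / t ^ 2) q) ^ 2 =
      (q * deriv Φ q) ^ 2 * (4 * (γ q / q ^ 2) ^ 3 - g2 * (γ q / q ^ 2) - g3)) :
    ∀ᶠ q in 𝓝[≠] (0 : ℂ), (q * deriv γ q - 2 * γ q) ^ 2 =
      (deriv Φ q) ^ 2 * (4 * (γ q) ^ 3 - g2 * γ q * q ^ 4 - g3 * q ^ 6) := by
  have h1 : ∀ᶠ q in 𝓝[≠] (0 : ℂ), AnalyticAt ℂ γ q :=
    hγ.eventually_analyticAt.filter_mono nhdsWithin_le_nhds
  filter_upwards [h, h1, self_mem_nhdsWithin] with q hq hqa hq0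
  have hq0' : q ≠ 0 := hq0
  have hd : deriv (fun t => γ t / t ^ 2) q = (deriv γ q * q ^ 2 - γ q * (2 * q)) / (q ^ 2) ^ 2 := by
    have h2 : HasDerivAt (fun t : ℂ => t ^ 2) (2 * q) q := by
      simpa using hasDerivAt_pow 2 q
    exact (hqa.differentiableAt.hasDerivAt.div h2 (pow_ne_zero 2 hq0')).deriv
  rw [hd] at hq
  have e : (q * ((deriv γ q * q ^ 2 - γ q * (2 * q)) / (q ^ 2) ^ 2)) =
      (q * deriv γ q - 2 * γ q) / q ^ 2 := by
    field_simp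
  rw [e] at hq
  have h3 : (q * deriv Φ q) ^ 2 * (4 * (γ q / q ^ 2) ^ 3 - g2 * (γ q / q ^ 2) - g3) =
      (deriv Φ q) ^ 2 * (4 * (γ q) ^ 3 - g2 * γ q * q ^ 4 - g3 * q ^ 6) / q ^ 4 := by
    field_simp
  rw [h3, div_pow] at hq
  have h4 : (q ^ 2) ^ 2 = q ^ 4 := by ring
  rw [h4] at hq
  field_simp at hq
  linear_combination hq

theorem uniq (g2 g3 : ℂ) (Φ α β : ℂ → ℂ) (hΦ : AnalyticAt ℂ Φ 0) (hα : AnalyticAt ℂ α 0)
    (hβ : AnalyticAt ℂ β 0) (hΦ1 : deriv Φ 0 = 1) (hα1 : α 0 = 1) (hβ1 : β 0 = 1)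
    (h1 : ∀ᶠ q in 𝓝[≠] (0 : ℂ), (q * deriv α q - 2 * α q) ^ 2 =
      (deriv Φ q) ^ 2 * (4 * (α q) ^ 3 - g2 * α q * q ^ 4 - g3 * q ^ 6))
    (h2 : ∀ᶠ q in 𝓝[≠] (0 : ℂ), (q * deriv β q - 2 * β q) ^ 2 =
      (deriv Φ q) ^ 2 * (4 * (β q) ^ 3 - g2 * β q * q ^ 4 - g3 * q ^ 6)) :
    ∀ᶠ q in 𝓝 (0 : ℂ), α q - β q = 0 := by
  by_contra hc
  have hh : AnalyticAt ℂ (fun q => α q - β q) 0 := hα.sub hβ
  obtain ⟨m, k, hk, hk0, hek⟩ := (hh.exists_eventuallyEq_pow_smul_nonzero_iff).2 hc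
  have hm : m ≠ 0 := by
    rintro rfl
    have := hek.self_of_nhds
    simp only [hα1, hβ1, sub_self, pow_zero, one_smul] at this
    exact hk0 this.symm
  have hek' : (fun q => α q - β q) =ᶠ[𝓝 0] fun q => q ^ m * k q := by
    filter_upwards [hek] with q hq
    rw [hq]; simp
  have hdk := hek'.deriv
  have e1 : ∀ᶠ q in 𝓝[≠] (0 : ℂ), (((m : ℂ) - 2) * k q + q * deriv k q) *
      (q * (deriv α q + deriv β q) - 2 * (α q + β q)) =
      (deriv Φ q) ^ 2 * k q * (4 * ((α q) ^ 2 + α q * β q + (β q) ^ 2) - g2 * q ^ 4) := by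
    filter_upwards [h1, h2, hek'.filter_mono nhdsWithin_le_nhds,
      hdk.filter_mono nhdsWithin_le_nhds, self_mem_nhdsWithin,
      hα.eventually_analyticAt.filter_mono nhdsWithin_le_nhds,
      hβ.eventually_analyticAt.filter_mono nhdsWithin_le_nhds,
      hk.eventually_analyticAt.filter_mono nhdsWithin_le_nhds] with q a1 a2 a3 a4 a5 a6 a7 a8
    have hq0 : q ≠ 0 := a5
    have d1 : deriv (fun q => α q - β q) q = deriv α q - deriv β q :=
      deriv_fun_sub a6.differentiableAt a7.differentiableAt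
    have d2 : deriv (fun q => q ^ m * k q) q = m * q ^ (m - 1) * k q + q ^ m * deriv k q := by
      have : HasDerivAt (fun t : ℂ => t ^ m) (m * q ^ (m - 1)) q := hasDerivAt_pow m q
      exact (this.mul a8.differentiableAt.hasDerivAt).deriv
    rw [d1, d2] at a4
    have hqm : q * q ^ (m - 1) = q ^ m := by
      rw [← pow_succ', Nat.sub_add_cancel (Nat.pos_of_ne_zero hm)]
    have a4' : q * (deriv α q - deriv β q) = q ^ m * (m * k q + q * deriv k q) := by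
      rw [a4, ← hqm]; ring
    have h5 : q ^ m * ((((m : ℂ) - 2) * k q + q * deriv k q) *
      (q * (deriv α q + deriv β q) - 2 * (α q + β q))) = q ^ m * ((deriv Φ q) ^ 2 * k q *
        (4 * ((α q) ^ 2 + α q * β q + (β q) ^ 2) - g2 * q ^ 4)) := by
      have a3' : α q - β q = q ^ m * k q := a3
      linear_combination a1 - a2 - (q * (deriv α q + deriv β q) - 2 * (α q + β q)) * a4' +
        (2 * (q * (deriv α q + deriv β q) - 2 * (α q + β q)) + (deriv Φ q) ^ 2 *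
          (4 * ((α q) ^ 2 + α q * β q + (β q) ^ 2) - g2 * q ^ 4)) * a3'
    exact mul_left_cancel₀ (pow_ne_zero m hq0) h5
  have c1 : ContinuousAt (fun q => (((m : ℂ) - 2) * k q + q * deriv k q) *
      (q * (deriv α q + deriv β q) - 2 * (α q + β q))) 0 := by
    have := hα.continuousAt; have := hβ.continuousAt; have := hk.continuousAt
    have := hα.deriv.continuousAt; have := hβ.deriv.continuousAt; have := hk.deriv.continuousAt
    fun_prop
  have c2 : ContinuousAt (fun q => (deriv Φ q) ^ 2 * k q *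
      (4 * ((α q) ^ 2 + α q * β q + (β q) ^ 2) - g2 * q ^ 4)) 0 := by
    have := hα.continuousAt; have := hβ.continuousAt; have := hk.continuousAt
    have := hΦ.deriv.continuousAt
    fun_prop
  have t1 := c1.tendsto.mono_left (nhdsWithin_le_nhds (s := {0}ᶜ))
  have t2 := c2.tendsto.mono_left (nhdsWithin_le_nhds (s := {0}ᶜ))
  have t3 := tendsto_nhds_unique (t1.congr' e1) t2
  simp only [hα1, hβ1, hΦ1] at t3
  have h6 : k 0 * ((m : ℂ) + 1) = 0 := by linear_combination (-1 / 4) * t3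
  rcases mul_eq_zero.1 h6 with h7 | h7
  · exact hk0 h7
  · exact Nat.cast_add_one_ne_zero m h7

theorem s_ode : Pool.Agent.W97.MT.S_ODE := by
  intro L Φ α hΦ hα hΦ0 hΦ1 hα1 hODE
  obtain ⟨pΦ, hpΦ⟩ := hΦ
  have hΦ : AnalyticAt ℂ Φ 0 := ⟨pΦ, hpΦ⟩
  set u : ℂ → ℂ := dslope Φ 0 with hu
  have hua : AnalyticAt ℂ u 0 := ⟨_, hpΦ.has_fpower_series_dslope_fslope⟩
  have hu0 : u 0 = 1 := by rw [hu, dslope_same, hΦ1]
  have hfac : ∀ q, Φ q = q * u q := by
    intro q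
    have := sub_smul_dslope Φ 0 q
    rw [hΦ0, sub_zero, sub_zero, smul_eq_mul] at this
    exact this.symm
  have hune : ∀ᶠ q in 𝓝 (0 : ℂ), u q ≠ 0 :=
    hua.continuousAt.eventually_ne (by rw [hu0]; exact one_ne_zero)
  have hlat : ∀ᶠ q in 𝓝 (0 : ℂ), Φ q ∈ ((L.lattice : Set ℂ) \ {0})ᶜ := by
    have h := L.compl_lattice_sdiff_singleton_mem_nhds 0
    have h2 : Tendsto Φ (𝓝 0) (𝓝 0) := by
      have := hΦ.continuousAt.tendsto; rwa [hΦ0] at this
    exact h2.eventually h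
  have hnl : ∀ᶠ q in 𝓝[≠] (0 : ℂ), q ≠ 0 ∧ u q ≠ 0 ∧ Φ q ∉ L.lattice := by
    filter_upwards [hune.filter_mono nhdsWithin_le_nhds, hlat.filter_mono nhdsWithin_le_nhds,
      self_mem_nhdsWithin] with q h1 h2 h3
    have h3' : q ≠ 0 := h3
    refine ⟨h3', h1, fun h4 => h2 ⟨h4, ?_⟩⟩
    rw [Set.mem_singleton_iff, hfac]
    exact mul_ne_zero h3' h1
  set β : ℂ → ℂ := fun q => ((Φ q) ^ 2 * L.weierstrassPExcept 0 (Φ q) + 1) / (u q) ^ 2 with hβd
  have hg : AnalyticAt ℂ (fun q => L.weierstrassPExcept 0 (Φ q)) 0 := by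
    have h := L.analyticAt_weierstrassPExcept 0
    exact AnalyticAt.comp' (by rw [hΦ0]; exact h) hΦ
  have hβ : AnalyticAt ℂ β 0 := by
    refine AnalyticAt.div (((hΦ.pow 2).mul hg).add analyticAt_const) (hua.pow 2) ?_
    rw [hu0]; norm_num
  have hβ1 : β 0 = 1 := by
    simp only [hβd, hΦ0, hu0]; simp
  have hval : ∀ q, q ≠ 0 → u q ≠ 0 → L.weierstrassP (Φ q) = β q / q ^ 2 := by
    intro q hq huq
    have h := L.ite_eq_one_sub_sq_mul_weierstrassP 0 L.lattice.zero_mem (Φ q)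
    have hne : Φ q ≠ 0 := by rw [hfac]; exact mul_ne_zero hq huq
    rw [if_neg hne] at h
    simp only [sub_zero] at h
    have h2 : (0 : ℂ) ^ 2 = 0 := by norm_num
    rw [h2, div_zero, sub_zero] at h
    rw [hβd]
    simp only
    rw [← h, div_div, ← mul_pow, mul_comm (u q) q, ← hfac]
    field_simp
  have hβODE : ∀ᶠ q in 𝓝[≠] (0 : ℂ), (q * deriv (fun t => β t / t ^ 2) q) ^ 2 =
      (q * deriv Φ q) ^ 2 * (4 * (β q / q ^ 2) ^ 3 - L.g₂ * (β q / q ^ 2) - L.g₃) := by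
    filter_upwards [hnl, ev_nhds hnl, hΦ.eventually_analyticAt.filter_mono nhdsWithin_le_nhds]
      with q h1 h2 h3
    have h4 : (fun t => β t / t ^ 2) =ᶠ[𝓝 q] fun t => L.weierstrassP (Φ t) := by
      filter_upwards [h2] with t ht
      exact (hval t ht.1 ht.2.1).symm
    rw [h4.deriv_eq]
    have h5 : DifferentiableAt ℂ L.weierstrassP (Φ q) :=
      (L.analyticOnNhd_weierstrassP (Φ q) h1.2.2).differentiableAt
    have h6 : deriv (fun t => L.weierstrassP (Φ t)) q =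
        L.derivWeierstrassP (Φ q) * deriv Φ q := by
      have := (h5.hasDerivAt.comp q h3.differentiableAt.hasDerivAt).deriv
      rw [L.deriv_weierstrassP] at this
      exact this
    rw [h6, ← hval q h1.1 h1.2.1]
    have h7 := L.derivWeierstrassP_sq (Φ q) h1.2.2
    linear_combination (q * deriv Φ q) ^ 2 * h7
  have hfin := uniq L.g₂ L.g₃ Φ α β hΦ hα hβ hΦ1 hα1 hβ1 (ident _ _ Φ α hα hODE)
    (ident _ _ Φ β hβ hβODE)
  filter_upwards [hnl, hfin.filter_mono nhdsWithin_le_nhds] with q h1 h2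
  refine ⟨h1.2.2, ?_⟩
  rw [hval q h1.1 h1.2.1, sub_eq_zero.1 h2]

end Pool.Agent.W349.MT
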