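import Pool.Agent.W97.MT.Stm

set_option autoImplicit false

namespace Pool.Agent.W349.MT

open Pool.Agent.W97.MT WeierstrassCurve WeierstrassCurve.Affine

theorem s_six : Pool.Agent.W97.MT.S_SIX := by
  classical
  intro p hp h2 h3 h7
  haveI : Fact p.Prime := ⟨hp⟩
  have hne : ∀ n : ℕ, (n : ZMod p) = 0 → p ∣ n := fun n h => (ZMod.natCast_eq_zero_iff n p).1 h
  have h2' : (2 : ZMod p) ≠ 0 := by
    intro h
    have := hne 2 (by exact_mod_cast h)
    exact h2 ((Nat.prime_dvd_prime_iff_eq hp Nat.prime_two).1 this)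
  have h7' : (7 : ZMod p) ≠ 0 := by
    intro h
    have := hne 7 (by exact_mod_cast h)
    exact h7 ((Nat.prime_dvd_prime_iff_eq hp (by norm_num)).1 this)
  set W : WeierstrassCurve (ZMod p) := E14.map (Int.castRingHom (ZMod p)) with hW
  have ha1 : W.a₁ = 1 := by simp [hW, E14]
  have ha2 : W.a₂ = 0 := by simp [hW, E14]
  have ha3 : W.a₃ = 1 := by simp [hW, E14]
  have ha4 : W.a₄ = 4 := by simp [hW, E14]
  have ha6 : W.a₆ = -6 := by simp [hW, E14]
  have hΔ : W.Δ ≠ 0 := by
    have : W.Δ = -(2 ^ 6 * 7 ^ 3) := by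
      simp only [WeierstrassCurve.Δ, WeierstrassCurve.b₂, WeierstrassCurve.b₄, WeierstrassCurve.b₆,
        WeierstrassCurve.b₈, ha1, ha2, ha3, ha4, ha6]
      norm_num
    rw [this, neg_ne_zero]
    exact mul_ne_zero (pow_ne_zero _ h2') (pow_ne_zero _ h7')
  haveI : W.IsElliptic := ⟨isUnit_iff_ne_zero.2 hΔ⟩
  have hcard : Nat.card (WeierstrassCurve.Affine.Point W.toAffine) = affCount E14 p + 1 := by
    rw [Nat.card_congr (pointEquiv W.toAffine)]
    unfold affCount
    exact Finite.card_option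
  haveI : Finite (WeierstrassCurve.Affine.Point W.toAffine) := by
    haveI : Finite (WithZero {xy : ZMod p × ZMod p // W.toAffine.Equation xy.fst xy.snd}) :=
      inferInstanceAs (Finite (Option {xy : ZMod p × ZMod p //
        W.toAffine.Equation xy.fst xy.snd}))
    exact Finite.of_equiv _ (pointEquiv W.toAffine).symm
  have hQe : W.toAffine.Equation 2 2 := by
    rw [WeierstrassCurve.Affine.equation_iff, ha1, ha2, ha3, ha4, ha6]; norm_num
  have hTe : W.toAffine.Equation 1 (-1) := by
    rw [WeierstrassCurve.Affine.equation_iff, ha1, ha2, ha3, ha4, ha6]; norm_num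
  have hQn := (equation_iff_nonsingular (W := W.toAffine)).1 hQe
  have hTn := (equation_iff_nonsingular (W := W.toAffine)).1 hTe
  have hT2 : addOrderOf (Point.some _ _ hTn : W.toAffine.Point) = 2 := by
    haveI : Fact (Nat.Prime 2) := ⟨Nat.prime_two⟩
    apply addOrderOf_eq_prime
    · rw [two_nsmul]
      apply Point.add_self_of_Y_eq
      rw [negY, ha1, ha3]; norm_num
    · exact Point.some_ne_zero _
  have hY : (2 : ZMod p) ≠ W.toAffine.negY 2 2 := by
    rw [negY, ha1, ha3]
    intro h
    apply h7'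
    linear_combination h
  have hsl : W.toAffine.slope 2 2 2 2 = 2 := by
    rw [slope_of_Y_ne rfl hY, ha1, ha2, ha4, negY, ha1, ha3]
    rw [div_eq_iff]
    · norm_num
    · intro h; apply h7'; linear_combination h
  have hQQ : (Point.some _ _ hQn : W.toAffine.Point) + Point.some _ _ hQn =
      - Point.some _ _ hQn := by
    rw [Point.add_self_of_Y_ne hY, Point.neg_some]
    have e1 : W.toAffine.addX 2 2 (W.toAffine.slope 2 2 2 2) = 2 := by
      rw [hsl, addX, ha1, ha2]; norm_num
    have e2 : W.toAffine.addY 2 2 2 (W.toAffine.slope 2 2 2 2) = W.toAffine.negY 2 2 := by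
      rw [addY, e1, negAddY, e1]; norm_num
    simp only [e1, e2]
  have hQ3 : addOrderOf (Point.some _ _ hQn : W.toAffine.Point) = 3 := by
    haveI : Fact (Nat.Prime 3) := ⟨Nat.prime_three⟩
    apply addOrderOf_eq_prime
    · rw [show (3 : ℕ) = 2 + 1 from rfl, add_nsmul, two_nsmul, one_nsmul, hQQ, neg_add_cancel]
    · exact Point.some_ne_zero _
  rw [← hcard]
  have d2 : 2 ∣ Nat.card (WeierstrassCurve.Affine.Point W.toAffine) := by
    rw [← hT2]; exact addOrderOf_dvd_natCard _
  have d3 : 3 ∣ Nat.card (WeierstrassCurve.Affine.Point W.toAffine) := by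
    rw [← hQ3]; exact addOrderOf_dvd_natCard _
  omega

end Pool.Agent.W349.MT
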