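import Pool.Agent.W97.MT.Stm

set_option autoImplicit false

open Module

namespace Pool.Agent.W349.MT

open Pool.Agent.W97.MT

theorem s_sub : Pool.Agent.W97.MT.S_SUB := by
  intro L Λ hΛ
  set N : Submodule ℤ ℂ := AddSubgroup.toIntSubmodule Λ with hN
  have hmem : ∀ x : ℂ, x ∈ N ↔ x ∈ Λ := fun x => Iff.rfl
  have hNO : N ≤ L.lattice := fun x hx => hΛ x hx
  obtain ⟨n, b⟩ := Submodule.basisOfPidOfLE hNO L.latticeBasis
  have hli : LinearIndependent ℤ (fun i => Submodule.inclusion hNO (b i)) :=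
    b.linearIndependent.map' _ (Submodule.ker_inclusion _ _ hNO)
  have hn : n ≤ 2 := by
    have := hli.fintype_card_le_finrank
    rwa [Fintype.card_fin, L.finrank_lattice] at this
  have hrep : ∀ x ∈ Λ, ∃ c : Fin n → ℤ, x = ∑ i, (c i : ℂ) * (b i : ℂ) := by
    intro x hx
    refine ⟨fun i => b.repr ⟨x, hx⟩ i, ?_⟩
    have := congrArg (Subtype.val) (b.sum_repr ⟨x, hx⟩)
    rw [AddSubmonoidClass.coe_finsetSum] at this
    simp only [Submodule.coe_smul, zsmul_eq_mul] at this
    exact this.symm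
  interval_cases n
  · right
    refine ⟨1, one_ne_zero, fun x hx => ⟨0, ?_⟩⟩
    obtain ⟨c, hc⟩ := hrep x hx
    rw [hc]; simp
  · right
    refine ⟨b 0, ?_, fun x hx => ?_⟩
    · intro h
      exact b.ne_zero 0 (Subtype.ext h)
    · obtain ⟨c, hc⟩ := hrep x hx
      exact ⟨c 0, by rw [hc]; simp⟩
  · left
    obtain ⟨m1, n1, e1⟩ := PeriodPair.mem_lattice.1 (hNO (b 0).2)
    obtain ⟨m2, n2, e2⟩ := PeriodPair.mem_lattice.1 (hNO (b 1).2)
    have hpair := LinearIndependent.pair_iff.1 L.indep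
    have hind : ∀ s t : ℤ, (s : ℂ) * (b 0 : ℂ) + (t : ℂ) * (b 1 : ℂ) = 0 → s = 0 ∧ t = 0 := by
      intro s t h
      have h1 : s • b 0 + t • b 1 = 0 := by
        apply Subtype.ext
        rw [Submodule.coe_add, Submodule.coe_smul, Submodule.coe_smul, zsmul_eq_mul, zsmul_eq_mul]
        exact h
      have h2 := Fintype.linearIndependent_iff.1 b.linearIndependent ![s, t]
        (by rw [Fin.sum_univ_two]; exact h1)
      exact ⟨h2 0, h2 1⟩
    have hdet : (m1 * n2 - m2 * n1 : ℤ) ≠ 0 := by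
      intro hd
      have hd' : ((m1 : ℂ) * n2 - m2 * n1) = 0 := by exact_mod_cast congrArg (Int.cast : ℤ → ℂ) hd
      have h1 := hind n2 (-n1) (by
        rw [← e1, ← e2]; push_cast; linear_combination L.ω₁ * hd')
      have h2 := hind m2 (-m1) (by
        rw [← e1, ← e2]; push_cast; linear_combination (-L.ω₂) * hd')
      have hm1 : m1 = 0 := by omega
      have hn1 : n1 = 0 := by omega
      have h3 := hind 1 0 (by rw [← e1, hm1, hn1]; simp)
      exact one_ne_zero h3.1
    have hdR : ((m1 : ℝ) * n2 - m2 * n1) ≠ 0 := by exact_mod_cast hdet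
    have hR : LinearIndependent ℝ ![((b 0 : N) : ℂ), ((b 1 : N) : ℂ)] := by
      rw [LinearIndependent.pair_iff]
      intro s t h
      rw [← e1, ← e2] at h
      simp only [Complex.real_smul] at h
      have h4 := hpair (s * m1 + t * m2) (s * n1 + t * n2) (by
        simp only [Complex.real_smul]; push_cast; linear_combination h)
      constructor
      · have : s * ((m1 : ℝ) * n2 - m2 * n1) = 0 := by
          linear_combination n2 * h4.1 - m2 * h4.2
        exact (mul_eq_zero.1 this).resolve_right hdR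
      · have : t * ((m1 : ℝ) * n2 - m2 * n1) = 0 := by
          linear_combination m1 * h4.2 - n1 * h4.1
        exact (mul_eq_zero.1 this).resolve_right hdR
    refine ⟨⟨b 0, b 1, hR⟩, fun x => ?_⟩
    rw [PeriodPair.mem_lattice]
    constructor
    · rintro ⟨m, n, rfl⟩
      have h0 : ((b 0 : N) : ℂ) ∈ N := (b 0).2
      have h1 : ((b 1 : N) : ℂ) ∈ N := (b 1).2
      have := N.add_mem (N.smul_mem m h0) (N.smul_mem n h1)
      rw [zsmul_eq_mul, zsmul_eq_mul] at this
      exact this
    · intro hx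
      obtain ⟨c, hc⟩ := hrep x hx
      rw [Fin.sum_univ_two] at hc
      exact ⟨c 0, c 1, hc.symm⟩

end Pool.Agent.W349.MT
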