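import Pool.Agent.W97.MT.Stm

set_option autoImplicit false

open UpperHalfPlane MatrixGroups CongruenceSubgroup Filter Topology

namespace Pool.Agent.W349.MT

open Pool.Agent.W97.MT

theorem s_sup : Pool.Agent.W97.MT.S_SUP := by
  intro N _ f ⟨z0, hz0⟩ p hp a ha
  obtain ⟨C, hC⟩ := CuspFormClass.exists_bound f
  have hC' : ∀ z : ℍ, ‖f z‖ * z.im ≤ C := by
    intro z
    have h := hC z
    have h1 : ((2 : ℤ) / 2 : ℝ) = 1 := by norm_num
    rw [h1, Real.rpow_one, le_div_iff₀ z.im_pos] at h
    exact h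
  have hbdd : BddAbove (Set.range (fun z : ℍ => ‖f z‖ * z.im)) := by
    refine ⟨C, ?_⟩
    rintro _ ⟨z, rfl⟩
    exact hC' z
  set M : ℝ := ⨆ z : ℍ, ‖f z‖ * z.im with hM
  have hle : ∀ z : ℍ, ‖f z‖ * z.im ≤ M := fun z => le_ciSup hbdd z
  have hMpos : 0 < M := lt_of_lt_of_le (mul_pos (norm_pos_iff.2 hz0) z0.im_pos) (hle z0)
  have hp0 : (0 : ℝ) < p := by exact_mod_cast hp.pos
  have key : ∀ z : ℍ, ‖a‖ * (‖f z‖ * z.im) ≤ (p + 1) * M := by
    intro z
    have h1 : ‖a‖ * (‖f z‖ * z.im) = ‖hecke N p f z‖ * z.im := by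
      rw [ha z, norm_mul]; ring
    rw [h1, hecke]
    have e1 : ‖(if p ∣ N then 0 else (p : ℂ) * f (ofComplex ((p : ℂ) * z)))‖ * z.im ≤ M := by
      split_ifs with h
      · rw [norm_zero, zero_mul]; exact hMpos.le
      · have him : 0 < ((p : ℂ) * (z : ℂ)).im := by
          rw [Complex.mul_im]; simp [z.im_pos, hp.pos]
        rw [ofComplex_apply_of_im_pos him]
        have := hle ⟨(p : ℂ) * z, him⟩
        have e : (⟨(p : ℂ) * z, him⟩ : ℍ).im = p * z.im := by
          show ((p : ℂ) * (z : ℂ)).im = _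
          rw [Complex.mul_im]; simp
        rw [e] at this
        rw [norm_mul, Complex.norm_natCast]
        calc _ = ‖f ⟨(p : ℂ) * z, him⟩‖ * (p * z.im) := by ring
          _ ≤ M := this
    have e2 : ‖(∑ b ∈ Finset.range p, f (ofComplex (((z : ℂ) + b) / p))) / p‖ * z.im ≤ p * M := by
      rw [norm_div, Complex.norm_natCast]
      have h3 : ‖∑ b ∈ Finset.range p, f (ofComplex (((z : ℂ) + b) / p))‖ ≤
          ∑ b ∈ Finset.range p, ‖f (ofComplex (((z : ℂ) + b) / p))‖ := norm_sum_le _ _
      have h4 : (∑ b ∈ Finset.range p, ‖f (ofComplex (((z : ℂ) + b) / p))‖) / p * z.im ≤ p * M := by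
        rw [Finset.sum_div, Finset.sum_mul]
        calc _ ≤ ∑ b ∈ Finset.range p, M := by
              apply Finset.sum_le_sum
              intro b _
              have him0 : (((z : ℂ) + b) / p).im = z.im / p := by
                rw [Complex.div_natCast_im, Complex.add_im]; simp
              have him : 0 < (((z : ℂ) + b) / p).im := by
                rw [him0]; exact div_pos z.im_pos hp0
              rw [ofComplex_apply_of_im_pos him]
              have := hle ⟨((z : ℂ) + b) / p, him⟩
              have e : (⟨((z : ℂ) + b) / p, him⟩ : ℍ).im = z.im / p := him0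
              rw [e] at this
              calc _ = ‖f ⟨((z : ℂ) + b) / p, him⟩‖ * (z.im / p) := by ring
                _ ≤ M := this
          _ = p * M := by rw [Finset.sum_const, Finset.card_range, nsmul_eq_mul]
      refine le_trans ?_ h4
      have := z.im_pos
      gcongr
    calc _ ≤ (‖(if p ∣ N then 0 else (p : ℂ) * f (ofComplex ((p : ℂ) * z)))‖ +
          ‖(∑ b ∈ Finset.range p, f (ofComplex (((z : ℂ) + b) / p))) / p‖) * z.im := by
            have := z.im_pos
            gcongr
            exact norm_add_le _ _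
      _ ≤ (p + 1) * M := by rw [add_mul]; linarith
  by_cases h0 : ‖a‖ = 0
  · rw [h0]; positivity
  · have hapos : 0 < ‖a‖ := lt_of_le_of_ne (norm_nonneg _) (Ne.symm h0)
    have h5 : M ≤ (p + 1) * M / ‖a‖ := by
      apply ciSup_le
      intro z
      rw [le_div_iff₀ hapos]
      linarith [key z]
    rw [le_div_iff₀ hapos] at h5
    by_contra hc
    push Not at hc
    nlinarith

end Pool.Agent.W349.MT
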