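import Pool.Agent.W97.MT.Stm
import Pool.Agent.Helper620.Wg.KI
import Pool.Agent.Helper487.ECM.One

set_option autoImplicit false

namespace Pool.Agent.W349.MT

open Pool.Agent.W97.MT Pool.Agent.Helper487.ECM

theorem dwp_zero (L : PeriodPair) (w : ℂ) (h2 : 2 * w ∈ L.lattice) :
    L.derivWeierstrassP w = 0 := by
  have h := L.derivWeierstrassP_add_coe (-w) ⟨2 * w, h2⟩
  have e : -w + 2 * w = w := by ring
  simp only [e, L.derivWeierstrassP_neg] at h
  have h3 : 2 * L.derivWeierstrassP w = 0 := by linear_combination h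
  exact (mul_eq_zero.1 h3).resolve_left two_ne_zero

theorem s_tors : Pool.Agent.W97.MT.S_TORS := by
  intro L hg2 hg3 u hu hP
  have hu' : u ∈ Dom L := hu
  have hY1 : L.derivWeierstrassP u ^ 2 = 3136 := by
    rw [L.derivWeierstrassP_sq u hu, hP, hg2, hg3]; norm_num
  have hY1ne : L.derivWeierstrassP u ≠ 0 := by
    intro h; rw [h] at hY1; norm_num at hY1
  have h2u : 2 * u ∉ L.lattice := fun h => hY1ne (dwp_zero L u h)
  have h2u' : u + u ∈ Dom L := by
    show u + u ∉ L.lattice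
    rw [← two_mul]; exact h2u
  have hP2 : L.weierstrassP (2 * u) = 25 / 12 := by
    have h := wp_dup L hu' h2u' (by rw [wp_one_eq]; exact hY1ne)
    rw [wp_two L hu', wp_one_eq, wp_zero_eq, hP, hg2, ← two_mul] at h
    rw [h, div_pow, mul_pow, hY1]
    norm_num
  have h3u : 3 * u ∉ L.lattice := by
    intro h
    have h1 := L.weierstrassP_add_coe (-u) ⟨3 * u, h⟩
    have e : -u + 3 * u = 2 * u := by ring
    simp only [e, L.weierstrassP_neg] at h1
    rw [hP2, hP] at h1
    norm_num at h1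
  have hY2 : L.derivWeierstrassP (2 * u) ^ 2 = 49 := by
    rw [L.derivWeierstrassP_sq _ h2u, hP2, hg2, hg3]; norm_num
  have hne : wp L 0 (2 * u) ≠ wp L 0 u := by
    rw [wp_zero_eq, hP2, hP]; norm_num
  have e1 := wp_sub L (z := 2 * u) (w := u) h2u hu'
    (by show 2 * u - u ∉ L.lattice; rw [show 2 * u - u = u by ring]; exact hu) hne
  have e2 := wp_sub L (z := 2 * u) (w := -u) h2u (Dom_neg L hu')
    (by show 2 * u - -u ∉ L.lattice; rw [show 2 * u - -u = 3 * u by ring]; exact h3u)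
    (by rw [wp_neg]; exact hne)
  rw [show 2 * u - u = u by ring] at e1
  rw [show 2 * u - -u = 3 * u by ring] at e2
  unfold Q at e1 e2
  rw [wp_zero_eq, wp_one_eq, hP2, hP] at e1
  rw [wp_neg, wp_one_neg, wp_zero_eq, wp_one_eq, hP2, hP] at e2
  have hP3 : L.weierstrassP (3 * u) = 13 / 12 := by
    rw [e2]
    linear_combination e1 + (1 / 98) * hY1 + (1 / 98) * hY2
  refine ⟨h2u, h3u, hP2, hP3, ?_⟩
  by_contra h6
  have h6' : 2 * (3 * u) ∉ L.lattice := by
    rw [show 2 * (3 * u) = 6 * u by ring]; exact h6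
  have h := Wg.wpd_ne L (3 * u) h6'
  apply h
  have hsq := L.derivWeierstrassP_sq _ h3u
  rw [hP3, hg2, hg3] at hsq
  have : L.derivWeierstrassP (3 * u) ^ 2 = 0 := by rw [hsq]; norm_num
  exact pow_eq_zero_iff (two_ne_zero) |>.1 this

end Pool.Agent.W349.MT
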